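import Pool.Agent.H41.FD.Stm

set_option autoImplicit false

/-! S_B: the convergent case; a random model by blocks (helper22). -/

namespace Pool.Agent.H22.FD

open MeasureTheory Filter Topology ProbabilityTheory
open Pool.Agent.H41.LD (Past Future RangeDep)
open Pool.Agent.H41.FD

/-- the uniform distribution -/
noncomputable def nu : Measure ℝ := (volume : Measure ℝ).restrict (Set.Icc 0 1)

instance : IsProbabilityMeasure nu := ⟨by
  unfold nu
  rw [Measure.restrict_apply_univ, Real.volume_Icc]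
  simp⟩

theorem nu_Iic {t : ℝ} (_h0 : 0 ≤ t) (h1 : t ≤ 1) : nu (Set.Iic t) = ENNReal.ofReal t := by
  unfold nu
  rw [Measure.restrict_apply measurableSet_Iic]
  have : Set.Iic t ∩ Set.Icc (0 : ℝ) 1 = Set.Icc 0 t := by
    ext x
    simp only [Set.mem_inter_iff, Set.mem_Iic, Set.mem_Icc]
    constructor
    · rintro ⟨a, b, -⟩
      exact ⟨b, a⟩
    · rintro ⟨a, b⟩
      exact ⟨b, a, b.trans h1⟩
  rw [this, Real.volume_Icc, sub_zero]

/-- the product measure -/
noncomputable def PP : Measure (ℕ × ℕ → ℝ) := Measure.infinitePi (fun _ => nu)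

instance : IsProbabilityMeasure PP := by
  unfold PP
  infer_instance

theorem PP_le {p : ℕ × ℕ} {t : ℝ} (h0 : 0 ≤ t) (h1 : t ≤ 1) :
    PP {ω | ω p ≤ t} = ENNReal.ofReal t := by
  have h := (measurePreserving_eval_infinitePi (fun _ : ℕ × ℕ => nu) p).measure_preimage
    (s := Set.Iic t) measurableSet_Iic.nullMeasurableSet
  rw [nu_Iic h0 h1] at h
  exact h

/-- the length of the blocks -/
def Lb (d : ℕ → ℕ) (s : ℕ) : ℕ := min (1 + d (2 ^ s)) (2 ^ s)

theorem Lb_pos (d : ℕ → ℕ) (s : ℕ) : 0 < Lb d s := by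
  unfold Lb
  have : 0 < 2 ^ s := by positivity
  omega

/-- the block of `k` -/
def bl (d : ℕ → ℕ) (k : ℕ) : ℕ × ℕ :=
  if k = 0 then (0, 1) else (Nat.log 2 k, (k - 2 ^ Nat.log 2 k) / Lb d (Nat.log 2 k))

theorem bl_ne {d : ℕ → ℕ} (hd : Monotone d) {n' n k : ℕ} (h1 : n' ≤ n) (h2 : n + d n < k) :
    bl d n' ≠ bl d k := by
  intro h
  have hk0 : k ≠ 0 := by omega
  rcases Nat.eq_zero_or_pos n' with h0 | h0
  · subst h0
    unfold bl at h
    rw [if_pos rfl, if_neg hk0, Prod.mk.injEq] at h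
    obtain ⟨h3, h4⟩ := h
    rw [← h3] at h4
    have h5 : k < 2 ^ (0 + 1) := by
      rw [h3]
      exact Nat.lt_pow_succ_log_self (by norm_num) k
    have h6 : k = 1 := by omega
    rw [h6] at h4
    simp at h4
  · unfold bl at h
    rw [if_neg h0.ne', if_neg hk0, Prod.mk.injEq] at h
    obtain ⟨h3, h4⟩ := h
    rw [← h3] at h4
    have h5 : 2 ^ Nat.log 2 n' ≤ n' := Nat.pow_log_le_self 2 h0.ne'
    have h6 : 2 ^ Nat.log 2 n' ≤ k := by
      rw [h3]
      exact Nat.pow_log_le_self 2 hk0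
    have hL := Lb_pos d (Nat.log 2 n')
    have hLd : Lb d (Nat.log 2 n') ≤ 1 + d n := by
      unfold Lb
      have := hd (h5.trans h1)
      omega
    obtain ⟨L, hLe⟩ : ∃ L, L = Lb d (Nat.log 2 n') := ⟨_, rfl⟩
    rw [← hLe] at h4 hL hLd
    have h7 : k - 2 ^ Nat.log 2 n' < L * ((k - 2 ^ Nat.log 2 n') / L + 1) :=
      Nat.lt_mul_div_succ _ hL
    have h8 : L * ((n' - 2 ^ Nat.log 2 n') / L) ≤ n' - 2 ^ Nat.log 2 n' := Nat.mul_div_le _ _
    rw [← h4, mul_add, mul_one] at h7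
    omega

/-- the events -/
def Ev (d : ℕ → ℕ) (k : ℕ) : Set (ℕ × ℕ → ℝ) := {ω | ω (bl d k) ≤ 1 / ((k : ℝ) + 1)}

/-- the union of the events of a dyadic block -/
def Bs (d : ℕ → ℕ) (s : ℕ) : Set (ℕ × ℕ → ℝ) :=
  ⋃ q ∈ Finset.range (2 ^ s / Lb d s + 1), {ω | ω (s, q) ≤ 1 / (2 : ℝ) ^ s}

theorem Bs_le (d : ℕ → ℕ) (s : ℕ) : PP (Bs d s) ≤
    ENNReal.ofReal (1 / (1 + (d (2 ^ s) : ℝ)) + 2 * (1 / 2 : ℝ) ^ s) := by
  unfold Bs
  refine (measure_biUnion_finset_le _ _).trans ?_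
  have h2 : (0 : ℝ) < 2 ^ s := by positivity
  have h3 : (1 : ℝ) / 2 ^ s ≤ 1 := by
    rw [div_le_one h2]
    exact one_le_pow₀ (by norm_num)
  rw [Finset.sum_congr rfl fun q _ => PP_le (p := (s, q)) (by positivity : (0 : ℝ) ≤ 1 / 2 ^ s) h3,
    Finset.sum_const, Finset.card_range, nsmul_eq_mul, ← ENNReal.ofReal_natCast,
    ← ENNReal.ofReal_mul (Nat.cast_nonneg _)]
  refine ENNReal.ofReal_le_ofReal ?_
  have hL : (0 : ℝ) < Lb d s := by exact_mod_cast Lb_pos d s
  have h4 : (((2 ^ s / Lb d s : ℕ)) : ℝ) ≤ (2 : ℝ) ^ s / Lb d s := by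
    have := Nat.cast_div_le (α := ℝ) (m := 2 ^ s) (n := Lb d s)
    push_cast at this
    exact this
  have h5 : 1 / (Lb d s : ℝ) ≤ 1 / (1 + (d (2 ^ s) : ℝ)) + 1 / 2 ^ s := by
    unfold Lb
    rcases min_choice (1 + d (2 ^ s)) (2 ^ s) with h | h
    · rw [h]
      push_cast
      have : (0 : ℝ) ≤ 1 / 2 ^ s := by positivity
      linarith
    · rw [h]
      push_cast
      have : (0 : ℝ) ≤ 1 / (1 + (d (2 ^ s) : ℝ)) := by positivity
      linarith
  have h6 : (1 / 2 : ℝ) ^ s = 1 / 2 ^ s := by rw [div_pow, one_pow]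
  push_cast
  rw [h6, add_mul]
  have h7 : (((2 ^ s / Lb d s : ℕ)) : ℝ) * (1 / 2 ^ s) ≤ 1 / Lb d s := by
    calc (((2 ^ s / Lb d s : ℕ)) : ℝ) * (1 / 2 ^ s) ≤ (2 : ℝ) ^ s / Lb d s * (1 / 2 ^ s) :=
          mul_le_mul_of_nonneg_right h4 (by positivity)
      _ = 1 / Lb d s := by field_simp
  linarith

/-- **S_B** -/
theorem b : S_B := by
  intro d hd hsum
  have hEm : ∀ k, MeasurableSet[MeasurableSpace.comap (fun ω : ℕ × ℕ → ℝ => ω (bl d k)) Real.measurableSpace] (Ev d k) := by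
    intro k
    exact ⟨Set.Iic (1 / ((k : ℝ) + 1)), measurableSet_Iic, rfl⟩
  have hmeas : ∀ k, MeasurableSet (Ev d k) := fun k => by
    have h : Measurable fun ω : ℕ × ℕ → ℝ => ω (bl d k) := measurable_pi_apply _
    exact h measurableSet_Iic
  refine ⟨ℕ × ℕ → ℝ, inferInstance, PP, inferInstance, Ev d, ⟨hmeas, ?_⟩, ?_, ?_⟩
  · intro n
    have hle : ∀ p : ℕ × ℕ, MeasurableSpace.comap (fun ω : ℕ × ℕ → ℝ => ω p) Real.measurableSpace ≤
        (inferInstance : MeasurableSpace (ℕ × ℕ → ℝ)) := by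
      intro p
      exact (measurable_pi_apply p : Measurable fun ω : ℕ × ℕ → ℝ => ω p).comap_le
    have hind : iIndep (fun p : ℕ × ℕ => MeasurableSpace.comap (fun ω : ℕ × ℕ → ℝ => ω p) Real.measurableSpace) PP := by
      have h := iIndepFun_infinitePi (P := fun _ : ℕ × ℕ => nu) (X := fun _ x => x) (fun _ => measurable_id)
      exact h.iIndep
    have hdisj : Disjoint (bl d '' {k | k ≤ n}) (bl d '' {k | n + d n < k}) := by
      rw [Set.disjoint_left]
      rintro _ ⟨k, hk, rfl⟩ ⟨k', hk', h⟩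
      exact bl_ne hd hk hk' h.symm
    have hI := indep_iSup_of_disjoint hle hind hdisj
    have h1 : Past (Ev d) n ≤ ⨆ p ∈ bl d '' {k | k ≤ n},
        MeasurableSpace.comap (fun ω : ℕ × ℕ → ℝ => ω p) Real.measurableSpace := by
      refine MeasurableSpace.generateFrom_le ?_
      rintro _ ⟨k, hk, rfl⟩
      have h2 : MeasurableSpace.comap (fun ω : ℕ × ℕ → ℝ => ω (bl d k)) Real.measurableSpace ≤
          ⨆ p ∈ bl d '' {k | k ≤ n}, MeasurableSpace.comap (fun ω : ℕ × ℕ → ℝ => ω p) Real.measurableSpace :=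
        le_iSup₂_of_le (f := fun p (_ : p ∈ bl d '' {k | k ≤ n}) =>
          MeasurableSpace.comap (fun ω : ℕ × ℕ → ℝ => ω p) Real.measurableSpace) (bl d k) ⟨k, hk, rfl⟩ le_rfl
      exact h2 _ (hEm k)
    have h3 : Future (Ev d) (n + d n) ≤ ⨆ p ∈ bl d '' {k | n + d n < k},
        MeasurableSpace.comap (fun ω : ℕ × ℕ → ℝ => ω p) Real.measurableSpace := by
      refine MeasurableSpace.generateFrom_le ?_
      rintro _ ⟨k, hk, rfl⟩
      have h2 : MeasurableSpace.comap (fun ω : ℕ × ℕ → ℝ => ω (bl d k)) Real.measurableSpace ≤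
          ⨆ p ∈ bl d '' {k | n + d n < k}, MeasurableSpace.comap (fun ω : ℕ × ℕ → ℝ => ω p) Real.measurableSpace :=
        le_iSup₂_of_le (f := fun p (_ : p ∈ bl d '' {k | n + d n < k}) =>
          MeasurableSpace.comap (fun ω : ℕ × ℕ → ℝ => ω p) Real.measurableSpace) (bl d k) ⟨k, hk, rfl⟩ le_rfl
      exact h2 _ (hEm k)
    exact indep_of_indep_of_le_right (indep_of_indep_of_le_left hI h1) h3
  · intro k
    have h0 : (0 : ℝ) ≤ 1 / ((k : ℝ) + 1) := by positivity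
    have h1 : (1 : ℝ) / ((k : ℝ) + 1) ≤ 1 := by
      rw [div_le_one (by positivity)]
      have : (0 : ℝ) ≤ k := Nat.cast_nonneg k
      linarith
    have h2 : PP (Ev d k) = ENNReal.ofReal (1 / ((k : ℝ) + 1)) := PP_le h0 h1
    rw [measureReal_def, h2, ENNReal.toReal_ofReal h0]
  · have hs1 : Summable fun s : ℕ => 1 / (1 + (d (2 ^ s) : ℝ)) := by
      have h1 := (summable_condensed_iff_of_nonneg (f := fun k : ℕ => 1 / ((k : ℝ) * (1 + d k)))
        (fun n => by positivity) (fun m n hm hmn => by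
          have hm0 : (0 : ℝ) < m := by exact_mod_cast hm
          have hmn' : (m : ℝ) ≤ n := by exact_mod_cast hmn
          have hdd : (d m : ℝ) ≤ d n := by exact_mod_cast hd hmn
          have hd0 : (0 : ℝ) ≤ d m := Nat.cast_nonneg _
          refine one_div_le_one_div_of_le (by positivity) ?_
          exact mul_le_mul hmn' (by linarith) (by positivity) (by linarith))).2 hsum
      refine h1.congr fun s => ?_
      have h2 : (0 : ℝ) < 2 ^ s := by positivity
      have h3 : (0 : ℝ) < 1 + (d (2 ^ s) : ℝ) := by positivity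
      push_cast
      field_simp
    have hs2 : Summable fun s : ℕ => 1 / (1 + (d (2 ^ s) : ℝ)) + 2 * (1 / 2 : ℝ) ^ s :=
      hs1.add (summable_geometric_two.mul_left 2)
    have hB : ∑' s, PP (Bs d s) ≠ ⊤ := by
      have h1 : ∑' s, PP (Bs d s) ≤
          ∑' s : ℕ, ENNReal.ofReal (1 / (1 + (d (2 ^ s) : ℝ)) + 2 * (1 / 2 : ℝ) ^ s) :=
        ENNReal.tsum_le_tsum fun s => Bs_le d s
      exact ne_top_of_le_ne_top hs2.tsum_ofReal_ne_top h1
    filter_upwards [ae_eventually_notMem hB] with ω hω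
    obtain ⟨s₀, hs₀⟩ := eventually_atTop.1 hω
    refine (Set.finite_lt_nat (2 ^ s₀)).subset fun k hk => ?_
    by_contra hcon
    have hk1 : 2 ^ s₀ ≤ k := not_lt.1 hcon
    have hk0 : k ≠ 0 := by
      have : 0 < 2 ^ s₀ := by positivity
      omega
    have hlog : s₀ ≤ Nat.log 2 k := (Nat.le_log_iff_pow_le (by norm_num) hk0).2 hk1
    refine hs₀ _ hlog ?_
    have hk2 : ω (bl d k) ≤ 1 / ((k : ℝ) + 1) := hk
    unfold bl at hk2
    rw [if_neg hk0] at hk2
    unfold Bs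
    rw [Set.mem_iUnion₂]
    refine ⟨(k - 2 ^ Nat.log 2 k) / Lb d (Nat.log 2 k), ?_, ?_⟩
    · rw [Finset.mem_range]
      refine Nat.lt_succ_of_le (Nat.div_le_div_right ?_)
      have h1 : k < 2 ^ (Nat.log 2 k + 1) := Nat.lt_pow_succ_log_self (by norm_num) k
      rw [pow_succ] at h1
      omega
    · refine hk2.trans (one_div_le_one_div_of_le (by positivity) ?_)
      have h1 : 2 ^ Nat.log 2 k ≤ k := Nat.pow_log_le_self 2 hk0
      have h2 : ((2 : ℝ) ^ Nat.log 2 k) ≤ k := by exact_mod_cast h1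
      linarith

end Pool.Agent.H22.FD
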